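import Pool.Agent.Lib.MP_d0bb7d_co.Upper.Defs

/-! Volume of the cells. -/

namespace ChiUp

open MeasureTheory Metric

variable {n : ℕ}

theorem V_nonneg (n : ℕ) : 0 ≤ V n := measureReal_nonneg

theorem volume_real_ball (x : E n) {r : ℝ} (hr : 0 < r) :
    volume.real (ball x r) = r ^ n * V n := by
  unfold V
  rw [measureReal_def, Measure.addHaar_ball_of_pos volume x hr, ENNReal.toReal_mul,
    ENNReal.toReal_ofReal (pow_nonneg hr.le _), measureReal_def]
  simp

/-- The cap of the ball `ball a r` beyond the hyperplane at height `s` in direction `v`. -/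
def cap (a v : E n) (r s : ℝ) : Set (E n) :=
  {x | ‖x - a‖ < r ∧ ‖v‖ * s ≤ inner ℝ (x - a) v}

/-- The cap lies in the ball of radius `√(r² - s²)` about `a + s v/‖v‖`. -/
theorem cap_subset_ball (a v : E n) (hv : 0 < ‖v‖) {r s : ℝ} (hr : 0 < r) (hs : 0 ≤ s) :
    cap a v r s ⊆ ball (a + (s / ‖v‖) • v) (√(r ^ 2 - s ^ 2)) := by
  rintro x ⟨hx1, hx2⟩
  rw [mem_ball, dist_eq_norm]
  apply Real.lt_sqrt_of_sq_lt
  have h1 : x - (a + (s / ‖v‖) • v) = (x - a) - (s / ‖v‖) • v := by abel
  rw [h1, norm_sub_sq_real, real_inner_smul_right, norm_smul, Real.norm_eq_abs,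
    abs_of_nonneg (div_nonneg hs hv.le), div_mul_cancel₀ _ hv.ne']
  have h2 : s * s ≤ s / ‖v‖ * inner ℝ (x - a) v := by
    calc s * s = s / ‖v‖ * (‖v‖ * s) := by field_simp
      _ ≤ s / ‖v‖ * inner ℝ (x - a) v := mul_le_mul_of_nonneg_left hx2 (div_nonneg hs hv.le)
  have h3 : ‖x - a‖ ^ 2 < r ^ 2 := by
    have := norm_nonneg (x - a)
    nlinarith
  nlinarith

theorem volume_cap_le (a v : E n) {t : ℝ} (ht : 0 < t) (hv2 : ‖v‖ < 2) :
    volume.real (cap a v (t / 2) (t * (‖v‖ - 1) / 2)) ≤ (t / 2) ^ n * V n * phi n ‖v‖ := by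
  unfold phi
  split_ifs with h1
  · rw [mul_one, ← volume_real_ball a (by positivity)]
    refine measureReal_mono (fun x hx => ?_) measure_ball_lt_top.ne
    rw [mem_ball, dist_eq_norm]
    exact hx.1
  · push Not at h1
    have hv : 0 < ‖v‖ := by linarith
    have hpos : 0 < ‖v‖ * (2 - ‖v‖) := mul_pos hv (by linarith)
    have h2 := cap_subset_ball a v hv (r := t / 2) (s := t * (‖v‖ - 1) / 2) (by positivity)
      (by have : 0 ≤ ‖v‖ - 1 := by linarith
          positivity)
    have h3 : (t / 2) ^ 2 - (t * (‖v‖ - 1) / 2) ^ 2 = (t / 2) ^ 2 * (‖v‖ * (2 - ‖v‖)) := by ring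
    rw [h3, Real.sqrt_mul (by positivity), Real.sqrt_sq (by positivity)] at h2
    have hr : 0 < t / 2 * √(‖v‖ * (2 - ‖v‖)) := mul_pos (by positivity) (Real.sqrt_pos.mpr hpos)
    calc volume.real (cap a v (t / 2) (t * (‖v‖ - 1) / 2))
        ≤ volume.real (ball (a + (t * (‖v‖ - 1) / 2 / ‖v‖) • v) (t / 2 * √(‖v‖ * (2 - ‖v‖)))) :=
          measureReal_mono h2 measure_ball_lt_top.ne
      _ = (t / 2 * √(‖v‖ * (2 - ‖v‖))) ^ n * V n := volume_real_ball _ hr
      _ = (t / 2) ^ n * V n * √(‖v‖ * (2 - ‖v‖)) ^ n := by rw [mul_pow]; ring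

theorem le_volume_cell (c : ℕ → E n) (N i : ℕ) {t : ℝ} (ht : 0 < t) (_ht1 : t ≤ 1) :
    (t / 2) ^ n * V n * (1 - ∑ j ∈ (Finset.range N).erase i, phi n ‖c j - c i‖) ≤
      volume.real (cell t c N i) := by
  classical
  set C : ℕ → Set (E n) := fun j =>
    {x | ‖c j - c i‖ < 2 ∧ x ∈ cap (c i) (c j - c i) (t / 2) (t * (‖c j - c i‖ - 1) / 2)} with hC
  have hcov : ball (c i) (t / 2) ⊆ cell t c N i ∪ ⋃ j ∈ (Finset.range N).erase i, C j := by
    intro x hx
    rw [mem_ball, dist_eq_norm] at hx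
    by_cases h : x ∈ cell t c N i
    · exact Or.inl h
    · right
      have h' : ¬ ∀ j, j < N → j ≠ i → ‖c j - c i‖ < 2 →
          inner ℝ (x - c i) (c j - c i) < ‖c j - c i‖ * (t * (‖c j - c i‖ - 1) / 2) :=
        fun h2 => h ⟨hx, h2⟩
      push Not at h'
      obtain ⟨j, hj, hji, h2, h3⟩ := h'
      refine Set.mem_biUnion (Finset.mem_coe.mpr (Finset.mem_erase.mpr
        ⟨hji, Finset.mem_range.mpr hj⟩)) ?_
      exact ⟨h2, hx, h3⟩
  have hvol : ∀ j, volume.real (C j) ≤ (t / 2) ^ n * V n * phi n ‖c j - c i‖ := by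
    intro j
    by_cases h : ‖c j - c i‖ < 2
    · refine le_trans (measureReal_mono (fun x hx => hx.2) ?_) (volume_cap_le (c i) (c j - c i) ht h)
      refine ((measure_mono (t := ball (c i) (t / 2)) ?_).trans_lt measure_ball_lt_top).ne
      intro x hx
      rw [mem_ball, dist_eq_norm]
      exact hx.1
    · have h0 : C j = ∅ := by
        ext x
        simp [hC, h]
      rw [h0, measureReal_empty]
      have : 0 ≤ phi n ‖c j - c i‖ := by unfold phi; split_ifs <;> positivity
      have := V_nonneg n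
      positivity
  have h1 : volume.real (ball (c i) (t / 2)) ≤ volume.real (cell t c N i) +
      ∑ j ∈ (Finset.range N).erase i, volume.real (C j) := by
    calc volume.real (ball (c i) (t / 2))
        ≤ volume.real (cell t c N i ∪ ⋃ j ∈ (Finset.range N).erase i, C j) := by
          refine measureReal_mono hcov ?_
          refine ((measure_mono (t := ball (c i) (t / 2)) ?_).trans_lt measure_ball_lt_top).ne
          intro x hx
          rw [mem_ball, dist_eq_norm]
          rcases hx with hx | hx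
          · exact hx.1
          · obtain ⟨j, -, hj⟩ := Set.mem_iUnion₂.mp hx
            exact hj.2.1
      _ ≤ volume.real (cell t c N i) + volume.real (⋃ j ∈ (Finset.range N).erase i, C j) :=
          measureReal_union_le _ _
      _ ≤ _ := by
          gcongr
          exact measureReal_biUnion_finset_le _ _
  have h2 : ∑ j ∈ (Finset.range N).erase i, volume.real (C j) ≤
      ∑ j ∈ (Finset.range N).erase i, (t / 2) ^ n * V n * phi n ‖c j - c i‖ :=
    Finset.sum_le_sum fun j _ => hvol j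
  rw [volume_real_ball (c i) (by positivity)] at h1
  rw [← Finset.mul_sum] at h2
  linarith

end ChiUp
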