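import Pool.Agent.Lib.MP_d0bb7d_co.Upper.Defs

/-! Choice of the centres by averaging. -/

namespace ChiUp

open MeasureTheory Metric

variable {n : ℕ}

theorem exists_next (Q : Set (E n)) (hQ0 : volume Q ≠ 0)
    (hQ1 : volume Q ≠ ⊤) (f : E n → ℝ) (hf : Integrable f) (hf0 : ∀ x, 0 ≤ f x)
    (c : ℕ → E n) (N : ℕ) :
    ∃ z ∈ Q, ∑ i ∈ Finset.range N, f (c i - z) ≤ N * (∫ x, f x) / volume.real Q := by
  have hint : Integrable (fun z : E n => ∑ i ∈ Finset.range N, f (c i - z)) :=
    integrable_finsetSum _ fun i _ => hf.comp_sub_left (c i)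
  obtain ⟨z, hz, hle⟩ := exists_le_setAverage (μ := volume) hQ0 hQ1 hint.integrableOn
  refine ⟨z, hz, hle.trans ?_⟩
  rw [setAverage_eq, smul_eq_mul]
  have hpos : 0 < volume.real Q := ENNReal.toReal_pos hQ0 hQ1
  have h1 : ∫ z in Q, ∑ i ∈ Finset.range N, f (c i - z) ≤
      ∫ z, ∑ i ∈ Finset.range N, f (c i - z) :=
    setIntegral_le_integral hint
      (Filter.Eventually.of_forall fun z => Finset.sum_nonneg fun i _ => hf0 _)
  have h2 : ∫ z, ∑ i ∈ Finset.range N, f (c i - z) = N * ∫ x, f x := by
    rw [integral_finsetSum _ fun i _ => hf.comp_sub_left (c i)]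
    simp only [integral_sub_left_eq_self f volume]
    rw [Finset.sum_const, Finset.card_range, nsmul_eq_mul]
  rw [h2] at h1
  rw [le_div_iff₀ hpos, mul_comm, ← mul_assoc, mul_inv_cancel₀ hpos.ne', one_mul]
  exact h1

theorem exists_centres (Q : Set (E n)) (_hQ : MeasurableSet Q) (hQ0 : volume Q ≠ 0)
    (hQ1 : volume Q ≠ ⊤) (f : E n → ℝ) (hf : Integrable f) (hf0 : ∀ x, 0 ≤ f x)
    (heven : ∀ x, f (-x) = f x) (N : ℕ) :
    ∃ c : ℕ → E n, (∀ k, k < N → c k ∈ Q) ∧
      ∑ i ∈ Finset.range N, ∑ j ∈ (Finset.range N).erase i, f (c j - c i) ≤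
        N * N * (∫ x, f x) / volume.real Q := by
  have hpos : 0 < volume.real Q := ENNReal.toReal_pos hQ0 hQ1
  have hI : 0 ≤ ∫ x, f x := integral_nonneg hf0
  induction N with
  | zero => exact ⟨fun _ => 0, fun k hk => absurd hk (Nat.not_lt_zero k), by simp⟩
  | succ N ih =>
    obtain ⟨c, hc, hsum⟩ := ih
    obtain ⟨z, hz, hle⟩ := exists_next Q hQ0 hQ1 f hf hf0 c N
    refine ⟨Function.update c N z, ?_, ?_⟩
    · intro k hk
      rcases Nat.lt_succ_iff_lt_or_eq.mp hk with h | h
      · rw [Function.update_of_ne h.ne]; exact hc k h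
      · subst h; rw [Function.update_self]; exact hz
    · have hne : ∀ i ∈ Finset.range N, Function.update c N z i = c i := fun i hi =>
        Function.update_of_ne (Finset.mem_range.mp hi).ne _ _
      have hN : N ∉ Finset.range N := by simp
      have e1 : ∑ i ∈ Finset.range N, ∑ j ∈ (Finset.range (N + 1)).erase i,
            f (Function.update c N z j - Function.update c N z i) =
          ∑ i ∈ Finset.range N, (f (c i - z) +
            ∑ j ∈ (Finset.range N).erase i, f (c j - c i)) := by
        refine Finset.sum_congr rfl fun i hi => ?_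
        have hiN : i ≠ N := (Finset.mem_range.mp hi).ne
        rw [Finset.range_add_one, Finset.erase_insert_of_ne hiN.symm,
          Finset.sum_insert (by simp), Function.update_self, hne i hi]
        congr 1
        · rw [← heven, neg_sub]
        · refine Finset.sum_congr rfl fun j hj => ?_
          rw [hne j (Finset.mem_of_mem_erase hj)]
      have e2 : ∑ j ∈ (Finset.range (N + 1)).erase N,
            f (Function.update c N z j - Function.update c N z N) =
          ∑ j ∈ Finset.range N, f (c j - z) := by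
        rw [Finset.range_add_one, Finset.erase_insert hN, Function.update_self]
        refine Finset.sum_congr rfl fun j hj => ?_
        rw [hne j hj]
      rw [Finset.sum_range_succ, e1, e2, Finset.sum_add_distrib]
      have h3 : (N : ℝ) * N * (∫ x, f x) / volume.real Q + 2 * (N * (∫ x, f x) / volume.real Q) ≤
          ((N + 1 : ℕ) : ℝ) * ((N + 1 : ℕ) : ℝ) * (∫ x, f x) / volume.real Q := by
        rw [← mul_div_assoc, ← add_div]
        apply div_le_div_of_nonneg_right _ hpos.le
        push_cast
        nlinarith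
      linarith

end ChiUp
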