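import Pool.Agent.Lib.MP_d0bb7d_co.Upper.Defs

/-! The integral of `phi`. -/

namespace ChiUp

open MeasureTheory Metric Set

theorem phi_nonneg (n : ℕ) (r : ℝ) : 0 ≤ phi n r := by
  unfold phi
  split_ifs <;> positivity

theorem measurable_phi (n : ℕ) : Measurable (phi n) := by
  unfold phi
  refine Measurable.ite measurableSet_Iic measurable_const ?_
  refine Measurable.ite measurableSet_Iio ?_ measurable_const
  fun_prop

theorem phi_le_one (n : ℕ) (r : ℝ) : phi n r ≤ 1 := by
  unfold phi
  split_ifs with h1 h2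
  · exact le_rfl
  · apply pow_le_one₀ (Real.sqrt_nonneg _)
    rw [Real.sqrt_le_one]
    nlinarith [sq_nonneg (r - 1)]
  · exact zero_le_one

theorem phi_of_two_le {n : ℕ} {r : ℝ} (h : 2 ≤ r) : phi n r = 0 := by
  unfold phi
  rw [if_neg (by linarith), if_neg (by linarith)]

theorem integrable_phi (n : ℕ) : Integrable (fun x : E n => phi n ‖x‖) := by
  have hi : Integrable (indicator (ball (0 : E n) 2) (fun _ => (1 : ℝ))) := by
    rw [integrable_indicator_iff measurableSet_ball]
    exact integrableOn_const measure_ball_lt_top.ne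
  refine hi.mono' ((measurable_phi n).comp measurable_norm).aestronglyMeasurable ?_
  refine Filter.Eventually.of_forall fun x => ?_
  rw [Real.norm_of_nonneg (phi_nonneg n _)]
  by_cases hx : x ∈ ball (0 : E n) 2
  · rw [indicator_of_mem hx]
    exact phi_le_one n _
  · rw [indicator_of_notMem hx]
    rw [mem_ball_zero_iff, not_lt] at hx
    exact (phi_of_two_le hx).le

theorem key_bound {y : ℝ} (h1 : 5 / 4 < y) (h2 : y < 2) (k : ℕ) :
    y ^ k * (√(y * (2 - y))) ^ (k + 1) ≤ (√(27 / 16)) ^ (k + 1) := by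
  have hy0 : 0 < y := by linarith
  have h3 : y * √(y * (2 - y)) ≤ √(27 / 16) := by
    apply Real.le_sqrt_of_sq_le
    rw [mul_pow, Real.sq_sqrt (by nlinarith)]
    nlinarith [sq_nonneg (y - 3 / 2), sq_nonneg (y ^ 2 - 3 / 2 * y), sq_nonneg y,
      mul_nonneg (sq_nonneg (y - 3 / 2)) (show 0 ≤ y ^ 2 + y + 3 / 4 by positivity)]
  have h4 : y ^ k * (√(y * (2 - y))) ^ (k + 1) ≤ y ^ (k + 1) * (√(y * (2 - y))) ^ (k + 1) := by
    apply mul_le_mul_of_nonneg_right _ (by positivity)
    rw [pow_succ]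
    exact le_mul_of_one_le_right (by positivity) (by linarith)
  refine h4.trans ?_
  rw [← mul_pow]
  exact pow_le_pow_left₀ (by positivity) h3 _

theorem integral_phi_le (n : ℕ) (hn : 1 ≤ n) :
    ∫ x : E n, phi n ‖x‖ ≤ V n * ((5 / 4) ^ n + n * (√(27 / 16)) ^ n) := by
  obtain ⟨k, rfl⟩ : ∃ k, n = k + 1 := ⟨n - 1, by omega⟩
  have hnt : Nontrivial (E (k + 1)) := by
    have : Nontrivial (EuclideanSpace ℝ (Fin (k + 1))) := inferInstance
    exact this
  rw [integral_fun_norm_addHaar (volume : Measure (E (k + 1))) (phi (k + 1))]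
  have hdim : Module.finrank ℝ (E (k + 1)) = k + 1 := by simp
  rw [hdim, Nat.add_sub_cancel]
  set K : ℝ := (√(27 / 16)) ^ (k + 1) with hK
  have hK0 : 0 ≤ K := by positivity
  set g : ℝ → ℝ := fun y => indicator (Ioc 0 (5 / 4)) (fun y => y ^ k) y +
    indicator (Ioo (5 / 4) 2) (fun _ => K) y with hg
  have hg1 : IntegrableOn (indicator (Ioc (0 : ℝ) (5 / 4)) (fun y => y ^ k)) (Ioi 0) := by
    apply Integrable.integrableOn
    rw [integrable_indicator_iff measurableSet_Ioc]
    exact (continuous_pow k).integrableOn_Ioc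
  have hg2 : IntegrableOn (indicator (Ioo (5 / 4 : ℝ) 2) (fun _ => K)) (Ioi 0) := by
    apply Integrable.integrableOn
    rw [integrable_indicator_iff measurableSet_Ioo]
    exact integrableOn_const (by simp)
  have h1 : ∫ y in Ioi (0 : ℝ), y ^ k • phi (k + 1) y ≤ ∫ y in Ioi (0 : ℝ), g y := by
    apply integral_mono_of_nonneg
    · refine (ae_restrict_iff' measurableSet_Ioi).mpr (Filter.Eventually.of_forall fun y hy => ?_)
      rw [mem_Ioi] at hy
      exact mul_nonneg (by positivity) (phi_nonneg _ _)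
    · exact hg1.add hg2
    · refine (ae_restrict_iff' measurableSet_Ioi).mpr (Filter.Eventually.of_forall fun y hy => ?_)
      rw [mem_Ioi] at hy
      simp only [hg, smul_eq_mul]
      by_cases h1 : y ≤ 5 / 4
      · rw [indicator_of_mem (show y ∈ Ioc (0 : ℝ) (5 / 4) from ⟨hy, h1⟩),
          indicator_of_notMem (fun h : y ∈ Ioo (5 / 4 : ℝ) 2 => by linarith [h.1]), add_zero]
        exact mul_le_of_le_one_right (by positivity) (phi_le_one _ _)
      · rw [indicator_of_notMem (fun h : y ∈ Ioc (0 : ℝ) (5 / 4) => h1 h.2), zero_add]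
        push Not at h1
        by_cases h2 : y < 2
        · rw [indicator_of_mem (show y ∈ Ioo (5 / 4 : ℝ) 2 from ⟨h1, h2⟩)]
          unfold phi
          rw [if_neg (by linarith), if_pos h2]
          exact key_bound h1 h2 k
        · rw [indicator_of_notMem (fun h : y ∈ Ioo (5 / 4 : ℝ) 2 => h2 h.2),
            phi_of_two_le (by linarith), mul_zero]
  have h2 : ∫ y in Ioi (0 : ℝ), g y = (5 / 4) ^ (k + 1) / (k + 1) + (3 / 4) * K := by
    rw [hg, integral_add hg1 hg2]
    congr 1
    · rw [setIntegral_indicator measurableSet_Ioc]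
      have : Ioi (0 : ℝ) ∩ Ioc 0 (5 / 4) = Ioc 0 (5 / 4) := by
        ext y; simp only [mem_inter_iff, mem_Ioi, mem_Ioc]; tauto
      rw [this, ← intervalIntegral.integral_of_le (by norm_num), integral_pow]
      norm_num
    · rw [setIntegral_indicator measurableSet_Ioo]
      have : Ioi (0 : ℝ) ∩ Ioo (5 / 4) 2 = Ioo (5 / 4) 2 := by
        ext y; simp only [mem_inter_iff, mem_Ioi, mem_Ioo]
        constructor
        · rintro ⟨_, h⟩; exact h
        · rintro h; exact ⟨by linarith [h.1], h⟩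
      rw [this, setIntegral_const]
      simp
      left
      norm_num
  have hV : 0 ≤ V (k + 1) := by unfold V; positivity
  have h3 : (k + 1) • (volume : Measure (E (k + 1))).real (ball 0 1) •
      ∫ y in Ioi (0 : ℝ), y ^ k • phi (k + 1) y =
      V (k + 1) * ((k + 1) * ∫ y in Ioi (0 : ℝ), y ^ k • phi (k + 1) y) := by
    unfold V
    rw [nsmul_eq_mul]
    simp only [smul_eq_mul]
    push_cast
    ring
  rw [h3]
  apply mul_le_mul_of_nonneg_left _ hV
  calc ((k : ℝ) + 1) * ∫ y in Ioi (0 : ℝ), y ^ k • phi (k + 1) y ≤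
      (k + 1) * ((5 / 4) ^ (k + 1) / (k + 1) + (3 / 4) * K) := by
        rw [← h2]
        exact mul_le_mul_of_nonneg_left h1 (by positivity)
    _ = (5 / 4) ^ (k + 1) + (k + 1) * ((3 / 4) * K) := by
        field_simp
    _ ≤ (5 / 4) ^ (k + 1) + ((k + 1 : ℕ) : ℝ) * K := by
        push_cast
        have : (0 : ℝ) ≤ k := Nat.cast_nonneg k
        nlinarith

end ChiUp
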