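import Pool.Agent.Lib.MP_d0bb7d_co.Upper.Cells
import Pool.Agent.Lib.MP_d0bb7d_co.Upper.Cap
import Pool.Agent.Lib.MP_d0bb7d_co.Upper.PhiInt
import Pool.Agent.Lib.MP_d0bb7d_co.Upper.Centres

/-! A dense set without unit distances inside a box. -/

namespace ChiUp

open MeasureTheory Metric

/-- The cube `[1/2, L + 1/2]^n`. -/
def cube (n : ℕ) (L : ℝ) : Set (E n) := {x | ∀ k, 1 / 2 ≤ x k ∧ x k ≤ L + 1 / 2}

theorem cube_eq (n : ℕ) (L : ℝ) :
    cube n L = (WithLp.ofLp : E n → (Fin n → ℝ)) ⁻¹'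
      (Set.Icc (fun _ => 1 / 2) (fun _ => L + 1 / 2)) := by
  ext x
  simp only [cube, Set.mem_ofPred_eq, Set.mem_preimage, Set.mem_Icc, Pi.le_def]
  exact forall_and

theorem measurableSet_cube (n : ℕ) (L : ℝ) : MeasurableSet (cube n L) := by
  rw [cube_eq]
  exact (PiLp.volume_preserving_ofLp (Fin n)).measurable measurableSet_Icc

theorem volume_cube (n : ℕ) {L : ℝ} (_hL : 0 ≤ L) :
    volume (cube n L) = ENNReal.ofReal L ^ n := by
  rw [cube_eq, (PiLp.volume_preserving_ofLp (Fin n)).measure_preimage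
    measurableSet_Icc.nullMeasurableSet, Real.volume_Icc_pi]
  simp

theorem phi_eq_one {n : ℕ} {r : ℝ} (h : r ≤ 5 / 4) : phi n r = 1 := by
  unfold phi
  rw [if_pos h]

theorem exists_set (n : ℕ) (hn : 1 ≤ n) {L t : ℝ} (hL : 0 < L) (ht : 0 < t) (ht1 : t < 1) (N : ℕ)
    (hN : N * (V n * ((5 / 4) ^ n + n * (√(27 / 16)) ^ n)) / L ^ n ≤ 1 / 2) :
    ∃ S K : Set (E n), (∀ x ∈ S, ∀ y ∈ S, dist x y ≠ 1) ∧
      (∀ x ∈ S, ∀ k, 0 < x k ∧ x k < L + 1) ∧
      (∀ x ∈ K, ∀ y, dist x y ≤ (1 - t) / 8 → y ∈ S) ∧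
      N / 2 * (t / 2) ^ n * V n ≤ volume.real K := by
  classical
  have hLn : 0 < L ^ n := pow_pos hL n
  have hvol := volume_cube n hL.le
  have hvr : volume.real (cube n L) = L ^ n := by
    rw [Measure.real, hvol, ENNReal.toReal_pow, ENNReal.toReal_ofReal hL.le]
  obtain ⟨c, hcQ, hsum⟩ := exists_centres (cube n L) (measurableSet_cube n L)
    (by rw [hvol]; exact pow_ne_zero _ (by simpa using hL))
    (by rw [hvol]; exact ENNReal.pow_ne_top ENNReal.ofReal_ne_top)
    (fun x => phi n ‖x‖) (integrable_phi n) (fun x => phi_nonneg n _)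
    (fun x => by simp only [norm_neg]) N
  rw [hvr] at hsum
  have hV : 0 ≤ V n := measureReal_nonneg
  have hT : ∑ i ∈ Finset.range N, ∑ j ∈ (Finset.range N).erase i, phi n ‖c j - c i‖ ≤
      N / 2 := by
    refine hsum.trans ?_
    have h1 := integral_phi_le n hn
    have h2 : (N : ℝ) * N * (∫ x : E n, phi n ‖x‖) / L ^ n ≤
        N * (N * (V n * ((5 / 4) ^ n + n * (√(27 / 16)) ^ n)) / L ^ n) := by
      rw [mul_assoc, mul_div_assoc]
      apply mul_le_mul_of_nonneg_left _ (Nat.cast_nonneg N)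
      apply div_le_div_of_nonneg_right _ hLn.le
      exact mul_le_mul_of_nonneg_left h1 (Nat.cast_nonneg N)
    refine h2.trans ?_
    have h3 := mul_le_mul_of_nonneg_left hN (Nat.cast_nonneg (α := ℝ) N)
    linarith
  -- the good centres
  let good : Finset ℕ := (Finset.range N).filter fun i =>
    ∀ j, j < N → j ≠ i → 5 / 4 < ‖c j - c i‖
  have hgood : ∀ i ∈ good, i < N ∧ ∀ j, j < N → j ≠ i → 5 / 4 < ‖c j - c i‖ := by
    intro i hi
    rw [Finset.mem_filter, Finset.mem_range] at hi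
    exact hi
  have hsub : ∀ i ∈ good, cell t c N i ⊆ cell 1 c N i := by
    intro i hi x hx
    refine cell_shrink c N i ht ht1 (hgood i hi).2 hx ?_
    rw [dist_self]; linarith
  have hdisj : (↑good : Set ℕ).PairwiseDisjoint (fun i => cell t c N i) := by
    intro i hi j hj hij
    rw [Function.onFun, Set.disjoint_left]
    intro x hx hx'
    have := cell_diff c N (hgood i hi).1 (hgood j hj).1 hij (hsub i hi hx) (hsub j hj hx')
    rw [dist_self] at this
    linarith
  refine ⟨⋃ i ∈ good, cell 1 c N i, ⋃ i ∈ good, cell t c N i, ?_, ?_, ?_, ?_⟩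
  · intro x hx y hy
    rw [Set.mem_iUnion₂] at hx hy
    obtain ⟨i, hi, hx⟩ := hx
    obtain ⟨j, hj, hy⟩ := hy
    by_cases hij : i = j
    · subst hij
      exact (cell_same c N i hx hy).ne
    · exact (cell_diff c N (hgood i hi).1 (hgood j hj).1 hij hx hy).ne'
  · intro x hx k
    rw [Set.mem_iUnion₂] at hx
    obtain ⟨i, hi, hx⟩ := hx
    exact cell_coord c N i (hcQ i (hgood i hi).1) hx k
  · intro x hx y hxy
    rw [Set.mem_iUnion₂] at hx ⊢
    obtain ⟨i, hi, hx⟩ := hx
    exact ⟨i, hi, cell_shrink c N i ht ht1 (hgood i hi).2 hx hxy⟩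
  · have hfin : ∀ i ∈ good, volume (cell t c N i) ≠ ⊤ := by
      intro i _
      refine ne_top_of_le_ne_top (measure_ball_lt_top (x := c i) (r := t / 2)).ne
        (measure_mono ?_)
      intro x hx
      rw [mem_ball_iff_norm]
      exact hx.1
    rw [measureReal_biUnion_finset hdisj (fun i _ => measurableSet_cell t c N i) hfin]
    have hA : 0 ≤ (t / 2) ^ n * V n := by positivity
    have h1 : ∑ i ∈ good, (t / 2) ^ n * V n *
          (1 - ∑ j ∈ (Finset.range N).erase i, phi n ‖c j - c i‖) ≤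
        ∑ i ∈ good, volume.real (cell t c N i) :=
      Finset.sum_le_sum fun i _ => le_volume_cell c N i ht ht1.le
    refine le_trans ?_ h1
    have h2 : ∑ i ∈ Finset.range N, (t / 2) ^ n * V n *
          (1 - ∑ j ∈ (Finset.range N).erase i, phi n ‖c j - c i‖) ≤
        ∑ i ∈ good, (t / 2) ^ n * V n *
          (1 - ∑ j ∈ (Finset.range N).erase i, phi n ‖c j - c i‖) := by
      rw [← Finset.sum_filter_add_sum_filter_not (Finset.range N)
        (fun i => ∀ j, j < N → j ≠ i → 5 / 4 < ‖c j - c i‖)]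
      have h3 : ∑ i ∈ (Finset.range N).filter
            (fun i => ¬ ∀ j, j < N → j ≠ i → 5 / 4 < ‖c j - c i‖), (t / 2) ^ n * V n *
          (1 - ∑ j ∈ (Finset.range N).erase i, phi n ‖c j - c i‖) ≤ 0 := by
        apply Finset.sum_nonpos
        intro i hi
        rw [Finset.mem_filter] at hi
        obtain ⟨hi1, hi2⟩ := hi
        push Not at hi2
        obtain ⟨j, hj, hji, hle⟩ := hi2
        have h4 : phi n ‖c j - c i‖ ≤ ∑ j ∈ (Finset.range N).erase i, phi n ‖c j - c i‖ :=
          Finset.single_le_sum (f := fun j => phi n ‖c j - c i‖) (fun j _ => phi_nonneg n _)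
            (Finset.mem_erase.mpr ⟨hji, Finset.mem_range.mpr hj⟩)
        rw [phi_eq_one hle] at h4
        apply mul_nonpos_of_nonneg_of_nonpos hA
        linarith
      linarith
    refine le_trans ?_ h2
    rw [← Finset.mul_sum, Finset.sum_sub_distrib, Finset.sum_const, Finset.card_range,
      nsmul_eq_mul, mul_one]
    have h5 : (t / 2) ^ n * V n * (N / 2) ≤ (t / 2) ^ n * V n *
        (N - ∑ i ∈ Finset.range N, ∑ j ∈ (Finset.range N).erase i, phi n ‖c j - c i‖) :=
      mul_le_mul_of_nonneg_left (by linarith) hA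
    linarith

end ChiUp
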