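import Pool.Agent.Lib.MP_d0bb7d_co.Upper.Defs

/-! Geometry of the cells. -/

namespace ChiUp

open MeasureTheory Metric

variable {n : ℕ}

theorem cell_same (c : ℕ → E n) (N i : ℕ) {x y : E n} (hx : x ∈ cell 1 c N i)
    (hy : y ∈ cell 1 c N i) : dist x y < 1 := by
  have h1 := hx.1
  have h2 := hy.1
  have h3 : dist x y ≤ dist x (c i) + dist (c i) y := dist_triangle _ _ _
  rw [dist_eq_norm x (c i), dist_comm (c i) y, dist_eq_norm y (c i)] at h3
  linarith

theorem cell_diff (c : ℕ → E n) (N : ℕ) {i j : ℕ} (hi : i < N) (hj : j < N) (hij : i ≠ j)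
    {x y : E n} (hx : x ∈ cell 1 c N i) (hy : y ∈ cell 1 c N j) : 1 < dist x y := by
  have hx1 := hx.1
  have hy1 := hy.1
  set v : E n := c j - c i with hv
  have hvn : ‖c i - c j‖ = ‖v‖ := by rw [hv, norm_sub_rev]
  rcases le_or_gt 2 ‖v‖ with h | h
  · have h3 : ‖v‖ ≤ ‖x - c i‖ + dist x y + ‖y - c j‖ := by
      have h4 : v = (x - c i) - (x - y) - (y - c j) := by rw [hv]; abel
      calc ‖v‖ = ‖(x - c i) - (x - y) - (y - c j)‖ := by rw [← h4]
        _ ≤ ‖(x - c i) - (x - y)‖ + ‖y - c j‖ := norm_sub_le _ _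
        _ ≤ ‖x - c i‖ + ‖x - y‖ + ‖y - c j‖ := by gcongr; exact norm_sub_le _ _
        _ = _ := by rw [dist_eq_norm]
    linarith
  · have h1 := hx.2 j hj hij.symm h
    have h2 := hy.2 i hi hij (by rw [hvn]; exact h)
    rw [hvn] at h2
    have h3 : inner ℝ (y - c j) (c i - c j) = - inner ℝ (y - c j) v := by
      rw [hv, ← neg_sub (c j) (c i), inner_neg_right]
    rw [h3] at h2
    have h4 : inner ℝ (y - x) v = inner ℝ (y - c j) v - inner ℝ (x - c i) v + ‖v‖ ^ 2 := by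
      have h5 : y - x = (y - c j) - (x - c i) + v := by rw [hv]; abel
      rw [h5, inner_add_left, inner_sub_left, real_inner_self_eq_norm_sq]
    have h6 : inner ℝ (y - x) v ≤ ‖y - x‖ * ‖v‖ := real_inner_le_norm _ _
    have h7 : ‖v‖ < ‖y - x‖ * ‖v‖ := by nlinarith
    have h8 : 0 < ‖v‖ := by
      rcases (norm_nonneg v).eq_or_lt with h9 | h9
      · rw [← h9] at h7; simp at h7
      · exact h9
    have h10 : 1 < ‖y - x‖ := by
      by_contra h11
      push Not at h11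
      have := mul_le_mul_of_nonneg_right h11 h8.le
      linarith
    rw [dist_comm, dist_eq_norm]
    exact h10

theorem cell_shrink (c : ℕ → E n) (N i : ℕ) {t : ℝ} (ht : 0 < t) (ht1 : t < 1)
    (hgap : ∀ j, j < N → j ≠ i → 5 / 4 < ‖c j - c i‖) {x y : E n} (hx : x ∈ cell t c N i)
    (hxy : dist x y ≤ (1 - t) / 8) : y ∈ cell 1 c N i := by
  have hyx : ‖y - x‖ ≤ (1 - t) / 8 := by rw [← dist_eq_norm, dist_comm]; exact hxy
  refine ⟨?_, fun j hj hji hlt => ?_⟩
  · have h1 : ‖y - c i‖ ≤ ‖y - x‖ + ‖x - c i‖ := norm_sub_le_norm_sub_add_norm_sub _ _ _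
    have h2 := hx.1
    linarith
  · have h1 := hx.2 j hj hji hlt
    have hg := hgap j hj hji
    have h2 : inner ℝ (y - c i) (c j - c i) =
        inner ℝ (x - c i) (c j - c i) + inner ℝ (y - x) (c j - c i) := by
      rw [← inner_add_left]; congr 1; abel
    have h3 : inner ℝ (y - x) (c j - c i) ≤ ‖y - x‖ * ‖c j - c i‖ := real_inner_le_norm _ _
    have h4 : ‖y - x‖ * ‖c j - c i‖ ≤ (1 - t) / 8 * ‖c j - c i‖ :=
      mul_le_mul_of_nonneg_right hyx (norm_nonneg _)
    rw [h2]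
    have h5 : 0 < ‖c j - c i‖ := by linarith
    have h6 : (1 - t) / 8 ≤ (1 * (‖c j - c i‖ - 1) / 2) - (t * (‖c j - c i‖ - 1) / 2) := by
      nlinarith
    have h7 := mul_le_mul_of_nonneg_right h6 h5.le
    nlinarith

theorem cell_coord (c : ℕ → E n) (N i : ℕ) {L : ℝ} (hc : ∀ k, 1 / 2 ≤ c i k ∧ c i k ≤ L + 1 / 2)
    {x : E n} (hx : x ∈ cell 1 c N i) (k : Fin n) : 0 < x k ∧ x k < L + 1 := by
  have h1 : |(x - c i) k| ≤ ‖x - c i‖ := by
    rw [← Real.norm_eq_abs]; exact PiLp.norm_apply_le (x - c i) k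
  have h2 := hx.1
  have h3 := hc k
  rw [PiLp.sub_apply] at h1
  have h4 := abs_lt.mp (lt_of_le_of_lt h1 h2)
  constructor <;> linarith [h4.1, h4.2, h3.1, h3.2]

theorem measurableSet_cell (t : ℝ) (c : ℕ → E n) (N i : ℕ) : MeasurableSet (cell t c N i) := by
  have h : cell t c N i = {x | ‖x - c i‖ < t / 2} ∩ ⋂ j : ℕ, {x | j < N → j ≠ i →
      ‖c j - c i‖ < 2 → inner ℝ (x - c i) (c j - c i) <
        ‖c j - c i‖ * (t * (‖c j - c i‖ - 1) / 2)} := by
    ext x
    simp [cell]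
  rw [h]
  refine MeasurableSet.inter ?_ (MeasurableSet.iInter fun j => ?_)
  · exact (isOpen_lt (by fun_prop) (by fun_prop)).measurableSet
  · by_cases h1 : j < N
    · by_cases h2 : j ≠ i
      · by_cases h3 : ‖c j - c i‖ < 2
        · simp only [h1, h2, h3, ne_eq, not_false_eq_true, forall_const]
          exact (isOpen_lt (by fun_prop) (by fun_prop)).measurableSet
        · simp [h3]
      · simp [h2]
    · simp [h1]

end ChiUp
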