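import Mathlib

/-! Covering a finite group by translates of a set. -/

namespace ChiUp

/-- One greedy step: some translate of `A` covers at least the average part of `U`. -/
theorem exists_translate {G : Type*} [AddCommGroup G] [Fintype G] [DecidableEq G] (A U : Finset G) :
    ∃ s : G, ((U.filter fun g => g - s ∉ A).card : ℝ) ≤
      (1 - (A.card : ℝ) / Fintype.card G) * U.card := by
  by_contra hcon
  push Not at hcon
  have hG : (0 : ℝ) < Fintype.card G := by
    have : 0 < Fintype.card G := Fintype.card_pos_iff.mpr ⟨0⟩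
    exact_mod_cast this
  have h1 : ∑ s : G, ((U.filter fun g => g - s ∉ A).card : ℝ) =
      (Fintype.card G - A.card : ℝ) * U.card := by
    have h2 : ∀ s : G, ((U.filter fun g => g - s ∉ A).card : ℝ) =
        ∑ g ∈ U, if g - s ∉ A then (1 : ℝ) else 0 := by
      intro s
      rw [Finset.card_filter]
      push_cast
      rfl
    rw [Finset.sum_congr rfl fun s _ => h2 s, Finset.sum_comm]
    have h3 : ∀ g ∈ U, ∑ s : G, (if g - s ∉ A then (1 : ℝ) else 0) = Fintype.card G - A.card := by
      intro g _
      have h4 : ∑ s : G, (if g - s ∉ A then (1 : ℝ) else 0) =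
          ∑ s : G, (if s ∉ A then (1 : ℝ) else 0) :=
        Fintype.sum_equiv (Equiv.subLeft g) _ _ (fun s => rfl)
      rw [h4]
      have h5 : ∑ s : G, (if s ∉ A then (1 : ℝ) else 0) = ((Aᶜ).card : ℝ) := by
        rw [← Finset.sum_filter, Finset.sum_const, nsmul_eq_mul, mul_one]
        congr 2
        ext s
        simp
      rw [h5, Finset.card_compl, Nat.cast_sub (Finset.card_le_univ A)]
    rw [Finset.sum_congr rfl h3, Finset.sum_const, nsmul_eq_mul]
    ring
  have h6 : ∑ _s : G, (1 - (A.card : ℝ) / Fintype.card G) * U.card <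
      ∑ s : G, ((U.filter fun g => g - s ∉ A).card : ℝ) :=
    Finset.sum_lt_sum_of_nonempty ⟨0, Finset.mem_univ _⟩ fun s _ => hcon s
  rw [h1, Finset.sum_const, nsmul_eq_mul, Finset.card_univ] at h6
  have h7 : (Fintype.card G : ℝ) * ((1 - (A.card : ℝ) / Fintype.card G) * U.card) =
      (Fintype.card G - A.card : ℝ) * U.card := by
    field_simp
  rw [h7] at h6
  exact lt_irrefl _ h6

/-- If `|G| (1 - |A|/|G|)^M < 1` then `M` translates of `A` cover `G`. -/
theorem exists_cover {G : Type*} [AddCommGroup G] [Fintype G] [DecidableEq G] (A : Finset G)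
    (M : ℕ) (h : (Fintype.card G : ℝ) * (1 - (A.card : ℝ) / Fintype.card G) ^ M < 1) :
    ∃ s : Fin M → G, ∀ g, ∃ k, g - s k ∈ A := by
  have hG : (0 : ℝ) < Fintype.card G := by
    have : 0 < Fintype.card G := Fintype.card_pos_iff.mpr ⟨0⟩
    exact_mod_cast this
  have hq : 0 ≤ 1 - (A.card : ℝ) / Fintype.card G := by
    rw [sub_nonneg, div_le_one hG]
    exact_mod_cast Finset.card_le_univ A
  have key : ∀ K : ℕ, ∃ s : Fin K → G,
      ((Finset.univ.filter fun g => ∀ k, g - s k ∉ A).card : ℝ) ≤
        Fintype.card G * (1 - (A.card : ℝ) / Fintype.card G) ^ K := by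
    intro K
    induction K with
    | zero =>
      refine ⟨Fin.elim0, ?_⟩
      simp
    | succ K ih =>
      obtain ⟨s, hs⟩ := ih
      obtain ⟨u, hu⟩ := exists_translate A (Finset.univ.filter fun g => ∀ k, g - s k ∉ A)
      refine ⟨Fin.snoc s u, ?_⟩
      have h1 : (Finset.univ.filter fun g => ∀ k : Fin (K + 1), g - (Fin.snoc s u : Fin (K + 1) → G) k ∉ A) =
          (Finset.univ.filter fun g => ∀ k, g - s k ∉ A).filter fun g => g - u ∉ A := by
        ext g
        simp [Fin.forall_fin_succ', Finset.mem_filter]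
      rw [h1]
      calc _ ≤ (1 - (A.card : ℝ) / Fintype.card G) *
            ((Finset.univ.filter fun g => ∀ k, g - s k ∉ A).card : ℝ) := hu
        _ ≤ (1 - (A.card : ℝ) / Fintype.card G) *
            (Fintype.card G * (1 - (A.card : ℝ) / Fintype.card G) ^ K) :=
            mul_le_mul_of_nonneg_left hs hq
        _ = _ := by rw [pow_succ]; ring
  obtain ⟨s, hs⟩ := key M
  refine ⟨s, fun g => ?_⟩
  have h1 : (Finset.univ.filter fun g => ∀ k, g - s k ∉ A).card = 0 := by
    have h2 : ((Finset.univ.filter fun g => ∀ k, g - s k ∉ A).card : ℝ) < 1 := lt_of_le_of_lt hs h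
    have h3 : (Finset.univ.filter fun g => ∀ k, g - s k ∉ A).card < 1 := by exact_mod_cast h2
    omega
  rw [Finset.card_eq_zero] at h1
  by_contra hcon
  push Not at hcon
  have h2 : g ∈ Finset.univ.filter fun g => ∀ k, g - s k ∉ A := by simp [hcon]
  rw [h1] at h2
  simp at h2

end ChiUp
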