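import Mathlib
import Pool.Prelude.Def_F_0b2be043

/-!
# Upper bound for the chromatic number of `ℝ^n`: definitions

`cell t c N i` is the ball of radius `t/2` about the centre `c i`, from which for every other centre
`c j` at distance `D < 2` the cap beyond the hyperplane at height `t (D-1)/2` is removed.
`phi n r` bounds the relative volume of the cap removed for a centre at distance `r`.
-/

namespace ChiUp

open MeasureTheory Metric

/-- Euclidean space of dimension `n`. -/
abbrev E (n : ℕ) := EuclideanSpace ℝ (Fin n)

/-- Volume of the unit ball. -/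
noncomputable def V (n : ℕ) : ℝ := volume.real (ball (0 : E n) 1)

/-- The cell of the centre `c i` among the centres `c 0, ..., c (N-1)`. -/
def cell {n : ℕ} (t : ℝ) (c : ℕ → E n) (N i : ℕ) : Set (E n) :=
  {x | ‖x - c i‖ < t / 2 ∧ ∀ j, j < N → j ≠ i → ‖c j - c i‖ < 2 →
     inner ℝ (x - c i) (c j - c i) < ‖c j - c i‖ * (t * (‖c j - c i‖ - 1) / 2)}

/-- Bound for the relative volume of the cap cut off by a centre at distance `r`. -/
noncomputable def phi (n : ℕ) (r : ℝ) : ℝ :=
  if r ≤ 5 / 4 then 1 else if r < 2 then (√(r * (2 - r))) ^ n else 0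

end ChiUp
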