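import Pool.Agent.Lib.MP_d0bb7d_co.Upper.Defs
import Pool.Agent.Lib.MP_d0bb7d_co.Upper.Cover

/-! From a set in a box to a colouring of the space. -/

namespace ChiUp

open MeasureTheory Metric Ndef2032f

/-- The grid box with index `g`. -/
def gbox (n m : ℕ) (P : ℝ) (g : Fin n → ZMod m) : Set (E n) :=
  {x | ∀ k, ((g k).val : ℝ) * (P / m) ≤ x k ∧ x k < ((g k).val : ℝ) * (P / m) + P / m}

theorem volume_gbox (n m : ℕ) {P : ℝ} (hP : 0 ≤ P) (g : Fin n → ZMod m) :
    volume.real (gbox n m P g) = (P / m) ^ n := by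
  have h1 : gbox n m P g = (@WithLp.ofLp 2 (Fin n → ℝ)) ⁻¹'
      (Set.pi Set.univ fun k => Set.Ico (((g k).val : ℝ) * (P / m))
        (((g k).val : ℝ) * (P / m) + P / m)) := by
    ext x
    simp only [gbox, Set.mem_ofPred_eq, Set.mem_preimage, Set.mem_pi, Set.mem_univ, true_imp_iff,
      Set.mem_Ico]
  have hpm : 0 ≤ P / m := by positivity
  rw [h1, Measure.real, (PiLp.volume_preserving_ofLp (Fin n)).measure_preimage
    (MeasurableSet.univ_pi fun _ => measurableSet_Ico).nullMeasurableSet,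
    Real.volume_pi_Ico_toReal (fun k => by simpa using hpm)]
  simp [div_pow]

/-- Index of a point in the grid. -/
noncomputable def gidx (n m : ℕ) (P : ℝ) (x : E n) : Fin n → ZMod m :=
  fun k => ((⌊x k * (m / P)⌋ : ℤ) : ZMod m)

theorem mem_gbox_gidx (n m : ℕ) [NeZero m] {P : ℝ} (hP : 0 < P) {x : E n}
    (hx : ∀ k, 0 ≤ x k ∧ x k < P) : x ∈ gbox n m P (gidx n m P x) := by
  intro k
  have hm : (0 : ℝ) < m := by exact_mod_cast Nat.pos_of_ne_zero (NeZero.ne m)
  obtain ⟨h0, h1⟩ := hx k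
  have e1 : 0 ≤ x k * (m / P) := by positivity
  have e2 : x k * (m / P) < m := by
    rw [mul_div_assoc', div_lt_iff₀ hP]
    nlinarith
  have f0 : 0 ≤ ⌊x k * (m / P)⌋ := Int.floor_nonneg.2 e1
  have f1 : ⌊x k * (m / P)⌋ < m := by
    rw [Int.floor_lt]
    exact_mod_cast e2
  have f2 : (((gidx n m P x k).val : ℕ) : ℤ) = ⌊x k * (m / P)⌋ := by
    unfold gidx
    rw [ZMod.val_intCast]
    exact Int.emod_eq_of_lt f0 f1
  have f3 : (((gidx n m P x k).val : ℕ) : ℝ) = (⌊x k * (m / P)⌋ : ℝ) := by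
    exact_mod_cast f2
  rw [f3]
  have g1 := Int.floor_le (x k * (m / P))
  have g2 := Int.lt_floor_add_one (x k * (m / P))
  have hp : 0 < P / m := by positivity
  have e3 : x k = x k * (m / P) * (P / m) := by field_simp
  constructor
  · calc (⌊x k * (m / P)⌋ : ℝ) * (P / m) ≤ x k * (m / P) * (P / m) := by gcongr
      _ = x k := e3.symm
  · calc x k = x k * (m / P) * (P / m) := e3
      _ < ((⌊x k * (m / P)⌋ : ℝ) + 1) * (P / m) := by gcongr
      _ = _ := by ring

theorem real_volume_le (n m : ℕ) [NeZero m] {P : ℝ} (hP : 0 < P) (K : Set (E n))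
    (hK : ∀ x ∈ K, ∀ k, 0 ≤ x k ∧ x k < P) (A : Finset (Fin n → ZMod m))
    (hA : ∀ x ∈ K, gidx n m P x ∈ A) : volume.real K ≤ A.card * (P / m) ^ n := by
  have h1 : K ⊆ ⋃ g ∈ A, gbox n m P g := by
    intro x hx
    simp only [Set.mem_iUnion]
    exact ⟨gidx n m P x, hA x hx, mem_gbox_gidx n m hP (hK x hx)⟩
  have hm : (0 : ℝ) < m := by exact_mod_cast Nat.pos_of_ne_zero (NeZero.ne m)
  have hfin : ∀ g : Fin n → ZMod m, volume (gbox n m P g) ≠ ⊤ := by
    intro g
    have h2 : gbox n m P g = (@WithLp.ofLp 2 (Fin n → ℝ)) ⁻¹'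
      (Set.pi Set.univ fun k => Set.Ico (((g k).val : ℝ) * (P / m))
        (((g k).val : ℝ) * (P / m) + P / m)) := by
      ext x
      simp only [gbox, Set.mem_ofPred_eq, Set.mem_preimage, Set.mem_pi, Set.mem_univ, true_imp_iff,
        Set.mem_Ico]
    rw [h2, (PiLp.volume_preserving_ofLp (Fin n)).measure_preimage
      (MeasurableSet.univ_pi fun _ => measurableSet_Ico).nullMeasurableSet, Real.volume_pi_Ico]
    exact ENNReal.prod_ne_top fun _ _ => ENNReal.ofReal_ne_top
  have hfin2 : volume (⋃ g ∈ A, gbox n m P g) ≠ ⊤ := by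
    refine ne_top_of_le_ne_top ?_ (measure_biUnion_finset_le A _)
    exact ENNReal.sum_ne_top.2 fun g _ => hfin g
  calc volume.real K ≤ volume.real (⋃ g ∈ A, gbox n m P g) := measureReal_mono h1 hfin2
    _ ≤ ∑ g ∈ A, volume.real (gbox n m P g) := measureReal_biUnion_finset_le A _
    _ = A.card * (P / m) ^ n := by
      rw [Finset.sum_congr rfl fun g _ => volume_gbox n m hP.le g, Finset.sum_const,
        nsmul_eq_mul]

/-- A point whose index is the index of a point of `K`, up to periods, comes from `S`. -/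
theorem exists_period (n m : ℕ) [NeZero m] {P eta : ℝ} (hP : 0 < P) (S K : Set (E n))
    (hK : ∀ x ∈ K, ∀ y, dist x y ≤ eta → y ∈ S) (hmesh : P / m * √n ≤ eta)
    {x a : E n} (ha : a ∈ K) (h : gidx n m P x = gidx n m P a) :
    ∃ z : Fin n → ℤ, ∃ y ∈ S, ∀ k, x k = y k + P * z k := by
  have hm : (0 : ℝ) < m := by exact_mod_cast Nat.pos_of_ne_zero (NeZero.ne m)
  have hp : 0 < P / m := by positivity
  have h1 : ∀ k, ∃ z : ℤ, ⌊x k * (m / P)⌋ = ⌊a k * (m / P)⌋ + m * z := by
    intro k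
    have h2 := congrFun h k
    unfold gidx at h2
    rw [ZMod.intCast_eq_intCast_iff_dvd_sub] at h2
    obtain ⟨z, hz⟩ := h2
    exact ⟨-z, by linarith⟩
  choose z hz using h1
  refine ⟨z, WithLp.toLp 2 (fun k => x k - P * z k), ?_, fun k => by simp⟩
  apply hK a ha
  refine le_trans ?_ hmesh
  have h3 : ∀ k, |a k - (x k - P * z k)| ≤ P / m := by
    intro k
    have g1 := Int.floor_le (x k * (m / P))
    have g2 := Int.lt_floor_add_one (x k * (m / P))
    have g3 := Int.floor_le (a k * (m / P))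
    have g4 := Int.lt_floor_add_one (a k * (m / P))
    have hz' : (⌊x k * (m / P)⌋ : ℝ) = ⌊a k * (m / P)⌋ + m * z k := by exact_mod_cast hz k
    rw [hz'] at g1 g2
    have e1 : a k - (x k - P * z k) = (a k * (m / P) - (x k * (m / P) - m * z k)) * (P / m) := by
      field_simp
    rw [e1, abs_mul, abs_of_pos hp]
    have e2 : |a k * (m / P) - (x k * (m / P) - m * z k)| ≤ 1 := by
      rw [abs_le]
      constructor <;> linarith
    calc _ ≤ 1 * (P / m) := by gcongr
      _ = P / m := one_mul _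
  rw [EuclideanSpace.dist_eq]
  have h4 : ∑ k, dist (a k) ((WithLp.toLp 2 (fun k => x k - P * z k) : E n) k) ^ 2 ≤
      n * (P / m) ^ 2 := by
    calc _ ≤ ∑ _k : Fin n, (P / m) ^ 2 := by
          apply Finset.sum_le_sum
          intro k _
          have := h3 k
          rw [Real.dist_eq]
          gcongr
      _ = _ := by simp
  calc _ ≤ √(n * (P / m) ^ 2) := Real.sqrt_le_sqrt h4
    _ = P / m * √n := by
      rw [Real.sqrt_mul (by positivity), Real.sqrt_sq hp.le, mul_comm]

theorem colorable_of_set (n : ℕ) {P eta : ℝ} (hP : 1 < P) (S K : Set (E n))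
    (hS : ∀ x ∈ S, ∀ y ∈ S, dist x y ≠ 1) (hbox : ∀ x ∈ S, ∀ k, 0 < x k ∧ x k < P - 1)
    (hK : ∀ x ∈ K, ∀ y, dist x y ≤ eta → y ∈ S) (heta : 0 ≤ eta)
    (m : ℕ) (hm : 1 ≤ m) (hmesh : P / m * √n ≤ eta) (M : ℕ)
    (hM : (m : ℝ) ^ n * (1 - volume.real K / P ^ n) ^ M < 1) :
    (unitDistanceGraph n).Colorable M := by
  classical
  have : NeZero m := ⟨by omega⟩
  have hP0 : 0 < P := by linarith
  have hm0 : (0 : ℝ) < m := by exact_mod_cast hm
  have hKS : ∀ x ∈ K, x ∈ S := fun x hx => hK x hx x (by simpa using heta)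
  set A : Finset (Fin n → ZMod m) :=
    Finset.univ.filter fun g => ∃ x ∈ K, gidx n m P x = g with hA
  have hvol : volume.real K ≤ A.card * (P / m) ^ n := by
    refine real_volume_le n m hP0 K (fun x hx k => ?_) A (fun x hx => ?_)
    · obtain ⟨h1, h2⟩ := hbox x (hKS x hx) k
      exact ⟨h1.le, by linarith⟩
    · rw [hA, Finset.mem_filter]
      exact ⟨Finset.mem_univ _, x, hx, rfl⟩
  have hcard : (Fintype.card (Fin n → ZMod m) : ℝ) = (m : ℝ) ^ n := by
    simp [ZMod.card]
  have hfrac : volume.real K / P ^ n ≤ (A.card : ℝ) / Fintype.card (Fin n → ZMod m) := by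
    rw [hcard, div_le_div_iff₀ (by positivity) (by positivity)]
    calc volume.real K * (m : ℝ) ^ n ≤ A.card * (P / m) ^ n * (m : ℝ) ^ n := by gcongr
      _ = A.card * P ^ n := by
        rw [div_pow]
        field_simp
  have hA1 : (A.card : ℝ) / Fintype.card (Fin n → ZMod m) ≤ 1 := by
    rw [div_le_one (by rw [hcard]; positivity)]
    exact_mod_cast Finset.card_le_univ A
  have hcov : (Fintype.card (Fin n → ZMod m) : ℝ) *
      (1 - (A.card : ℝ) / Fintype.card (Fin n → ZMod m)) ^ M < 1 := by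
    refine lt_of_le_of_lt ?_ hM
    rw [← hcard]
    have : (1 - (A.card : ℝ) / Fintype.card (Fin n → ZMod m)) ^ M ≤
        (1 - volume.real K / P ^ n) ^ M := by
      apply pow_le_pow_left₀ (by linarith)
      linarith
    exact mul_le_mul_of_nonneg_left this (by positivity)
  obtain ⟨s, hs⟩ := exists_cover A M hcov
  choose col hcol using fun x : E n => hs (gidx n m P x)
  -- translation vector
  set tr : Fin M → E n := fun k => WithLp.toLp 2 (fun i => ((s k i).val : ℝ) * (P / m)) with htr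
  have hidx : ∀ (x : E n) (k : Fin M), gidx n m P (x - tr k) = gidx n m P x - s k := by
    intro x k
    funext i
    unfold gidx
    have e1 : (x - tr k) i * (m / P) = x i * (m / P) - ((s k i).val : ℤ) := by
      simp only [htr, PiLp.sub_apply, Int.cast_natCast]
      field_simp
    rw [e1, Int.floor_sub_intCast]
    simp
  have key : ∀ (x : E n), ∃ z : Fin n → ℤ, ∃ y ∈ S, ∀ i, x i = y i + tr (col x) i + P * z i := by
    intro x
    have h1 := hcol x
    rw [← hidx, hA, Finset.mem_filter] at h1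
    obtain ⟨-, a, ha, hxa⟩ := h1
    obtain ⟨z, y, hy, hz⟩ := exists_period n m hP0 S K hK hmesh ha hxa.symm
    refine ⟨z, y, hy, fun i => ?_⟩
    have := hz i
    rw [PiLp.sub_apply] at this
    linarith
  refine ⟨SimpleGraph.Coloring.mk col ?_⟩
  intro x y hadj hxy
  have hadj' : dist x y = 1 := hadj
  obtain ⟨z, x', hx', hzx⟩ := key x
  obtain ⟨w, y', hy', hwy⟩ := key y
  by_cases hzw : z = w
  · apply hS x' hx' y' hy'
    rw [← hadj', dist_eq_norm, dist_eq_norm]
    congr 1
    ext i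
    have h1 := hzx i
    have h2 := hwy i
    simp only [PiLp.sub_apply]
    rw [h1, h2, hzw, hxy]
    ring
  · obtain ⟨i, hi⟩ := Function.ne_iff.1 hzw
    have h1 := hzx i
    have h2 := hwy i
    have h3 : |x i - y i| ≤ 1 := by
      rw [← hadj', ← Real.dist_eq]
      exact PiLp.dist_apply_le x y i
    have h4 : x i - y i = x' i - y' i + P * ((z i - w i : ℤ) : ℝ) := by
      rw [h1, h2, hxy]
      push_cast
      ring
    obtain ⟨b1, b2⟩ := hbox x' hx' i
    obtain ⟨b3, b4⟩ := hbox y' hy' i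
    have h5 : (1 : ℤ) ≤ |z i - w i| := Int.one_le_abs (sub_ne_zero.2 hi)
    have h6 : (1 : ℝ) ≤ |((z i - w i : ℤ) : ℝ)| := by
      rw [← Int.cast_abs]
      exact_mod_cast h5
    have h7 : |P * ((z i - w i : ℤ) : ℝ)| ≥ P := by
      rw [abs_mul, abs_of_pos hP0]
      nlinarith
    have h8 : |x' i - y' i| < P - 1 := by
      rw [abs_lt]
      constructor <;> linarith
    have h9 : |P * ((z i - w i : ℤ) : ℝ)| ≤ |x i - y i| + |x' i - y' i| := by
      have : P * ((z i - w i : ℤ) : ℝ) = (x i - y i) - (x' i - y' i) := by linarith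
      rw [this]
      exact abs_sub _ _
    linarith

end ChiUp
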